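import Pool.Agent.Helper96.EQ.Tf
import Pool.Agent.Helper19.EQ.Ps

/-! Project QD: the upper bound at a far point. -/

set_option autoImplicit false

namespace Pool.Agent.Helper19.QD

open MeasureTheory Set Filter Topology
open Pool.Agent.Helper63.EQ (Adm)
open Pool.Agent.Helper96.EQ (Tf gg_bd' cC2_nonneg)
open Pool.Agent.Helper99.MS (ell ff mr GB gg KL g1 CE cC2 gg_cont CE_nonneg up_far)

variable {w : ℝ → ℝ} {Cw B : ℝ}

/-- A2: MS.up_far for Tf -/
theorem far_up (h : Adm w Cw) (hB : GB (ff mr) B) {k : ℕ} (hk : 250 ≤ k) {m δ L : ℝ} (hm : m = ((4 * k : ℕ) : ℝ))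
    (hδ : δ = 1 / √m) (hL : 1 ≤ L) {u ρ U : ℝ} (hρ : 1 ≤ ρ) (hu : ρ ≤ u) (hU0 : 0 ≤ U)
    (hU : ∀ V : ℝ, |V - u| ≤ ρ → |Dr w δ (g1 m) (V + -(3 * δ / 2))| ≤ U) :
    (∫ v : ℝ, Tf (fun y => ps w δ (y - -(3 * δ / 2))) (gg (4 * k)) (v + u) * (KL L v : ℂ)).re ≤
      2 * Real.pi * (U + 228 * B * CE / √m * ∫ y : ℝ, |ps w δ y|) +
      (2 * cC2 B m * ∫ y : ℝ, |ps w δ y|) * ell u * (96 / (L * √ρ)) := by
  have hB0 := hB.nonneg
  have hCE := CE_nonneg
  have hk2 : 2 ≤ k := by omega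
  have hkR : (250 : ℝ) ≤ k := by exact_mod_cast hk
  have hm1 : (1000 : ℝ) ≤ m := by rw [hm]; push_cast; linarith
  have hs : (31 : ℝ) ≤ √m := by
    rw [show (31 : ℝ) = √(31 ^ 2) by rw [Real.sqrt_sq (by norm_num)]]
    exact Real.sqrt_le_sqrt (by linarith)
  have hδ0 : 0 < δ := by rw [hδ]; positivity
  have hδ1 : δ ≤ 1 / 31 := by
    rw [hδ]
    exact one_div_le_one_div_of_le (by norm_num) hs
  obtain ⟨hi, -⟩ := ps_int h hδ0 (by linarith : δ ≤ 1 / 4)
  set V₀ : ℝ := -(3 * δ / 2) with hV₀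
  set f : ℝ → ℝ := fun y => ps w δ (y - V₀) with hf
  have hfi : Integrable f := hi.comp_sub_right V₀
  have hfs : ∀ y, 1 < |y| → f y = 0 := by
    intro y hy
    apply ps_supp h hδ0.le
    rcases le_total 0 y with h1 | h1
    · rw [abs_of_nonneg h1] at hy
      right
      rw [hV₀]
      linarith
    · rw [abs_of_nonpos h1] at hy
      left
      rw [hV₀]
      linarith
  have hQ : ∫ y, |f y| = ∫ y, |ps w δ y| := integral_sub_right_eq_self (fun y => |ps w δ y|) V₀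
  have hQ0 : 0 ≤ ∫ y, |ps w δ y| := integral_nonneg fun y => abs_nonneg _
  have hc := cC2_nonneg (m := ((4 * k : ℕ) : ℝ)) hB0 (Nat.cast_nonneg (4 * k))
  rw [← hm] at hc
  have hgb : ∀ v, ‖gg (4 * k) v‖ ≤ cC2 B m * ell v := by
    intro v
    have := gg_bd' hB hk2 v
    rwa [← hm] at this
  have hgc := gg_cont hB (by omega : 1 ≤ k)
  have hTc := Tf_cont hfi hfs hgc hgb
  have hTb : ∀ v, ‖Tf f (gg (4 * k)) v‖ ≤ (2 * cC2 B m * ∫ y, |ps w δ y|) * ell v := by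
    intro v
    have := Tf_bd hfi hfs hgc hc hgb v
    rwa [hQ] at this
  refine up_far (g := Tf f (gg (4 * k))) hTc hTb (by positivity) hρ (c := U + 228 * B * CE / √m * ∫ y, |ps w δ y|)
    (by positivity) (fun v hv => ?_) (by linarith)
  have hv' := abs_le.1 hv
  have h1 := Tf_re h hB hk2 (V := v + u) hδ0 (by linarith : δ ≤ 1 / 16) (V₀ := V₀) (by
    rw [hV₀, abs_neg, abs_of_pos (by positivity)]
    linarith) (by linarith [hv'.1])
  rw [← hm] at h1
  have h2 := (abs_le.1 h1).2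
  have h3 := (abs_le.1 (hU (v + u) (by rw [add_sub_cancel_right]; exact hv))).2
  linarith

end Pool.Agent.Helper19.QD
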